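import Pool.Agent.Helper23.EC.DGoalsN

/-! Packet N6 of MP_ecc237_nt, Part D: closed forms of the `n`-sums of `h, d, χ`. -/

set_option autoImplicit false

open MeasureTheory Filter Topology Set

namespace Pool.Agent.Helper40.EC.D_N6

open EC237

/-! ### Parity classes -/

/-- parity of the class -/
def rho (r m : ℤ) : ℤ := (m - r) % 2

theorem incl_iff {r m : ℤ} (h : (m - r) % 3 = 0) (n : ℤ) :
    InCl r (n, m) ↔ ∃ j : ℤ, n = 2 * j + rho r m := by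
  unfold InCl rho
  constructor
  · intro h1
    simp only at h1
    exact ⟨(n - (m - r) % 2) / 2, by omega⟩
  · rintro ⟨j, rfl⟩
    simp only
    omega

theorem inj (ρ : ℤ) : Function.Injective (fun j : ℤ => 2 * j + ρ) := by
  intro a b h
  simp only at h
  omega

theorem tsum_class {r m : ℤ} (h : (m - r) % 3 = 0) (g : ℤ → ℂ) :
    ∑' n : ℤ, (if InCl r (n, m) then g n else 0) = ∑' j : ℤ, g (2 * j + rho r m) := by
  have hs : Function.support (fun n : ℤ => if InCl r (n, m) then g n else 0) ⊆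
      Set.range (fun j : ℤ => 2 * j + rho r m) := by
    intro n hn
    by_cases h1 : InCl r (n, m)
    · obtain ⟨j, hj⟩ := (incl_iff h n).1 h1
      exact ⟨j, hj.symm⟩
    · exact absurd (by simp [h1]) hn
  rw [← (inj (rho r m)).tsum_eq hs]
  refine tsum_congr fun j => ?_
  rw [if_pos ((incl_iff h _).2 ⟨j, rfl⟩)]

/-! ### Series -/

/-- `Σ_{n≥1} ε^n n^j e^{-πnV}` -/
noncomputable def qq (ε V : ℝ) (j : ℕ) : ℝ :=
  ∑' n : ℕ, ε ^ (n + 1) * ((n:ℝ) + 1) ^ j * Real.exp (-(Real.pi * ((n:ℝ) + 1) * V))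

theorem qz_eq (y : ℝ) (r m : ℤ) (j : ℕ) : qz y r m j = qq (epz r m) (|(m:ℝ)| * y) j := by
  unfold qz qq
  refine tsum_congr fun n => ?_
  congr 3
  ring

/-- `(n + iv)⁻¹`, `n = 2j + ρ` -/
noncomputable def fp (ρ : ℤ) (v : ℝ) (j : ℤ) : ℂ := (((2 * j + ρ : ℤ) : ℂ) + Complex.I * (v:ℂ))⁻¹

/-- `(n - iv)⁻¹`, `n = 2j + ρ` -/
noncomputable def fm (ρ : ℤ) (v : ℝ) (j : ℤ) : ℂ := (((2 * j + ρ : ℤ) : ℂ) - Complex.I * (v:ℂ))⁻¹

theorem ne_p {v : ℝ} (hv : v ≠ 0) (n : ℤ) : (n : ℂ) + Complex.I * (v:ℂ) ≠ 0 := by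
  intro h
  have := congrArg Complex.im h
  simp at this
  exact hv this

theorem ne_m {v : ℝ} (hv : v ≠ 0) (n : ℤ) : (n : ℂ) - Complex.I * (v:ℂ) ≠ 0 := by
  intro h
  have := congrArg Complex.im h
  simp at this
  exact hv this

theorem fp_summable (ρ : ℤ) (v : ℝ) {k : ℕ} (hk : 2 ≤ k) : Summable (fun j => fp ρ v j ^ k) := by
  have h := EisensteinSeries.linear_right_summable (Complex.I * (v:ℂ)) 1 (k := (k:ℤ))
    (by exact_mod_cast hk)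
  have h2 := h.comp_injective (inj ρ)
  refine h2.congr fun j => ?_
  simp only [Function.comp, fp, Int.cast_one, one_mul, zpow_natCast, inv_pow]
  congr 2
  ring

theorem fm_summable (ρ : ℤ) (v : ℝ) {k : ℕ} (hk : 2 ≤ k) : Summable (fun j => fm ρ v j ^ k) := by
  have h := EisensteinSeries.linear_right_summable (Complex.I * (v:ℂ)) (-1) (k := (k:ℤ))
    (by exact_mod_cast hk)
  have h2 := h.comp_injective (inj ρ)
  refine h2.congr fun j => ?_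
  simp only [Function.comp, fm, Int.cast_neg, Int.cast_one, neg_mul, one_mul, zpow_natCast,
    inv_pow]
  congr 2
  ring

theorem fpm_summable (ρ : ℤ) (v : ℝ) : Summable (fun j => fp ρ v j * fm ρ v j) := by
  have h := EisensteinSeries.summable_linear_sub_mul_linear_add (Complex.I * (v:ℂ)) 1 1
  have h2 := (h.comp_injective (inj ρ)).neg
  refine h2.congr fun j => ?_
  simp only [Function.comp, fp, fm, Int.cast_one, one_mul]
  rw [← mul_inv, ← inv_neg]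
  congr 1
  ring

theorem fm_tsum (ρ : ℤ) (v : ℝ) (k : ℕ) :
    ∑' j, fm ρ v j ^ k = (-1) ^ k * ∑' j, fp ρ v j ^ k := by
  rw [← tsum_mul_left, ← (Equiv.subLeft (-ρ)).tsum_eq]
  refine tsum_congr fun j => ?_
  rw [← mul_pow]
  congr 1
  unfold fm fp
  rw [neg_one_mul, ← inv_neg]
  congr 1
  simp only [Equiv.subLeft_apply]
  push_cast
  ring

/-- The nome. -/
theorem nome (ρ : ℤ) (hρ : ρ = 0 ∨ ρ = 1) (v : ℝ) :
    Complex.exp (2 * Real.pi * Complex.I * ((ρ + Complex.I * (v:ℂ)) / 2)) =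
      (((if ρ = 0 then 1 else -1 : ℝ) * Real.exp (-(Real.pi * v)) : ℝ) : ℂ) := by
  have e : 2 * (Real.pi:ℂ) * Complex.I * ((ρ + Complex.I * (v:ℂ)) / 2) =
      (ρ : ℂ) * (Real.pi * Complex.I) + ((-(Real.pi * v) : ℝ) : ℂ) := by
    push_cast
    linear_combination (Real.pi * (v:ℂ)) * Complex.I_mul_I
  rw [e, Complex.exp_add, ← Complex.ofReal_exp]
  rcases hρ with rfl | rfl
  · simp
  · simp [Complex.exp_pi_mul_I]

theorem nome' (ρ : ℤ) (hρ : ρ = 0 ∨ ρ = 1) (v : ℝ) :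
    Complex.exp (2 * Real.pi * Complex.I * ((-ρ + Complex.I * (v:ℂ)) / 2)) =
      (((if ρ = 0 then 1 else -1 : ℝ) * Real.exp (-(Real.pi * v)) : ℝ) : ℂ) := by
  have e : 2 * (Real.pi:ℂ) * Complex.I * ((-ρ + Complex.I * (v:ℂ)) / 2) =
      -((ρ : ℂ) * (Real.pi * Complex.I)) + ((-(Real.pi * v) : ℝ) : ℂ) := by
    push_cast
    linear_combination (Real.pi * (v:ℂ)) * Complex.I_mul_I
  rw [e, Complex.exp_add, ← Complex.ofReal_exp]
  rcases hρ with rfl | rfl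
  · simp
  · simp [Complex.exp_neg, Complex.exp_pi_mul_I]

theorem pow_nome (ε v : ℝ) (n : ℕ) :
    (ε * Real.exp (-(Real.pi * v))) ^ n = ε ^ n * Real.exp (-(Real.pi * (n:ℝ) * v)) := by
  rw [mul_pow, ← Real.exp_nat_mul]
  congr 2
  ring

theorem norm_nome {ε v : ℝ} (hε : |ε| = 1) (hv : 0 < v) :
    |ε * Real.exp (-(Real.pi * v))| < 1 := by
  rw [abs_mul, hε, one_mul, abs_of_pos (Real.exp_pos _), Real.exp_lt_one_iff]
  have := mul_pos Real.pi_pos hv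
  linarith

theorem abs_eps (ρ : ℤ) : |(if ρ = 0 then 1 else -1 : ℝ)| = 1 := by
  split_ifs <;> simp

theorem Sk_eq (ρ : ℤ) (hρ : ρ = 0 ∨ ρ = 1) {v : ℝ} (hv : 0 < v) {k : ℕ} (hk : 1 ≤ k) :
    ∑' j, fp ρ v j ^ (k + 1) = (1 / 2) ^ (k + 1) *
      ((-2 * Real.pi * Complex.I) ^ (k + 1) / (k.factorial : ℂ) *
        ((qq (if ρ = 0 then 1 else -1) v k : ℝ) : ℂ)) := by
  have him : 0 < ((ρ + Complex.I * (v:ℂ)) / 2).im := by
    simp
    exact hv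
  have h := EisensteinSeries.qExpansion_identity hk ⟨(ρ + Complex.I * (v:ℂ)) / 2, him⟩
  simp only at h
  rw [nome ρ hρ v] at h
  have e1 : ∑' j, fp ρ v j ^ (k + 1) = (1 / 2) ^ (k + 1) *
      ∑' n : ℤ, 1 / (((ρ + Complex.I * (v:ℂ)) / 2 : ℂ) + n) ^ (k + 1) := by
    rw [← tsum_mul_left]
    refine tsum_congr fun j => ?_
    unfold fp
    rw [← one_div_pow, ← mul_pow]
    congr 1
    rw [← one_div, one_div_mul_one_div]
    congr 1
    push_cast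
    ring
  rw [e1, h]
  congr 2
  have hn := norm_nome (abs_eps ρ) hv
  set ε : ℝ := if ρ = 0 then 1 else -1 with hε
  have hs : Summable (fun n : ℕ => (n:ℝ) ^ k * (ε * Real.exp (-(Real.pi * v))) ^ n) :=
    summable_pow_mul_geometric_of_norm_lt_one k (by rwa [Real.norm_eq_abs])
  have e2 : ∑' n : ℕ, (n:ℝ) ^ k * (ε * Real.exp (-(Real.pi * v))) ^ n = qq ε v k := by
    rw [hs.tsum_eq_zero_add]
    unfold qq
    rw [Nat.cast_zero, zero_pow (by omega), zero_mul, zero_add]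
    refine tsum_congr fun n => ?_
    rw [pow_nome]
    push_cast
    ring
  rw [← e2, Complex.ofReal_tsum]
  refine tsum_congr fun n => ?_
  push_cast
  ring

theorem cot_sum (ρ : ℤ) (hρ : ρ = 0 ∨ ρ = 1) {v : ℝ} (hv : 0 < v) :
    (v:ℂ) * ∑' j, fp ρ v j * fm ρ v j =
      ((Real.pi / 2 * (1 + 2 * qq (if ρ = 0 then 1 else -1) v 0) : ℝ) : ℂ) := by
  set z : ℂ := (ρ + Complex.I * (v:ℂ)) / 2 with hz
  set z' : ℂ := (-ρ + Complex.I * (v:ℂ)) / 2 with hz'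
  have him : 0 < z.im := by
    rw [hz]; simp; exact hv
  have him' : 0 < z'.im := by
    rw [hz']; simp; exact hv
  have hc : z ∈ Complex.integerComplement := UpperHalfPlane.coe_mem_integerComplement ⟨z, him⟩
  have hc' : z' ∈ Complex.integerComplement := UpperHalfPlane.coe_mem_integerComplement ⟨z', him'⟩
  let f : ℤ → ℂ := fun j => 1 / (z' - j) + 1 / (z + j)
  have hf : ∀ j, f j = (-4 * Complex.I * (v:ℂ)) * (fp ρ v j * fm ρ v j) := by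
    intro j
    show 1 / (z' - j) + 1 / (z + j) = _
    have h1 := ne_p hv.ne' (2 * j + ρ)
    have h2 := ne_m hv.ne' (2 * j + ρ)
    have e1 : z' - j = -((((2 * j + ρ : ℤ) : ℂ) - Complex.I * (v:ℂ)) / 2) := by
      rw [hz']; push_cast; ring
    have e2 : z + j = (((2 * j + ρ : ℤ) : ℂ) + Complex.I * (v:ℂ)) / 2 := by
      rw [hz]; push_cast; ring
    unfold fp fm
    rw [e1, e2]
    set A : ℂ := ((2 * j + ρ : ℤ) : ℂ) + Complex.I * (v:ℂ) with hA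
    set B : ℂ := ((2 * j + ρ : ℤ) : ℂ) - Complex.I * (v:ℂ) with hB
    have hAB : A - B = 2 * Complex.I * (v:ℂ) := by rw [hA, hB]; ring
    field_simp
    linear_combination (-2 : ℂ) * hAB
  have hfs : Summable f := by
    refine ((fpm_summable ρ v).mul_left (-4 * Complex.I * (v:ℂ))).congr fun j => ?_
    rw [hf]
  have hn : Summable (fun n : ℕ => f n) := hfs.comp_injective Nat.cast_injective
  have hneg : Summable (fun n : ℕ => f (-(n:ℤ))) :=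
    hfs.comp_injective (i := fun n : ℕ => -(n:ℤ)) (fun a b h => by simpa using h)
  have h1 : ∑' j : ℤ, f j = ∑' n : ℕ, f n + ∑' n : ℕ, f (-(n:ℤ)) - f 0 :=
    hn.tsum_of_nat_of_neg hneg
  rw [← hn.tsum_add hneg, (hn.add hneg).tsum_eq_zero_add] at h1
  have h2 : ∑' n : ℕ, (f ((n + 1 : ℕ) : ℤ) + f (-((n + 1 : ℕ) : ℤ))) =
      (Real.pi * Complex.cot (Real.pi * z') - 1 / z') +
        (Real.pi * Complex.cot (Real.pi * z) - 1 / z) := by
    rw [cot_series_rep' hc', cot_series_rep' hc, ← (summable_cotTerm hc').tsum_add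
      (summable_cotTerm hc)]
    refine tsum_congr fun n => ?_
    show (1 / (z' - ((n + 1 : ℕ) : ℤ)) + 1 / (z + ((n + 1 : ℕ) : ℤ))) +
      (1 / (z' - ((-((n + 1 : ℕ) : ℤ) : ℤ) : ℂ)) + 1 / (z + ((-((n + 1 : ℕ) : ℤ) : ℤ) : ℂ))) =
      (1 / (z' - (n + 1)) + 1 / (z' + (n + 1))) + (1 / (z - (n + 1)) + 1 / (z + (n + 1)))
    push_cast
    ring
  have hnm := norm_nome (abs_eps ρ) hv
  have q1 := pi_mul_cot_pi_q_exp ⟨z, him⟩
  have q2 := pi_mul_cot_pi_q_exp ⟨z', him'⟩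
  simp only at q1 q2
  rw [hz, nome ρ hρ v, ← hz] at q1
  rw [hz', nome' ρ hρ v, ← hz'] at q2
  set ε : ℝ := if ρ = 0 then 1 else -1 with hε
  have hs : Summable (fun n : ℕ => (ε * Real.exp (-(Real.pi * v))) ^ n) :=
    summable_geometric_of_norm_lt_one (by rwa [Real.norm_eq_abs])
  have e2 : ∑' n : ℕ, (ε * Real.exp (-(Real.pi * v))) ^ n = 1 + qq ε v 0 := by
    rw [hs.tsum_eq_zero_add]
    unfold qq
    rw [pow_zero]
    congr 1
    refine tsum_congr fun n => ?_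
    rw [pow_nome]
    push_cast
    ring
  have e3 : ∑' n : ℕ, (((ε * Real.exp (-(Real.pi * v)) : ℝ) : ℂ)) ^ n =
      ((1 + qq ε v 0 : ℝ) : ℂ) := by
    rw [← e2, Complex.ofReal_tsum]
    refine tsum_congr fun n => ?_
    push_cast
    ring
  rw [e3] at q1 q2
  have h3 : ∑' j : ℤ, f j = (-4 * Complex.I * (v:ℂ)) * ∑' j, fp ρ v j * fm ρ v j := by
    rw [← tsum_mul_left]
    exact tsum_congr hf
  have h0 : f 0 = 1 / z' + 1 / z := by
    show 1 / (z' - ((0:ℤ):ℂ)) + 1 / (z + ((0:ℤ):ℂ)) = _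
    push_cast
    ring
  have h4 : ∑' j : ℤ, f j = -2 * Real.pi * Complex.I * (1 + 2 * (qq ε v 0 : ℝ)) := by
    have e0 : f ((0:ℕ):ℤ) + f (-((0:ℕ):ℤ)) = f 0 + f 0 := by simp
    rw [h1, e0, h2, q1, q2, h0]
    push_cast
    ring
  rw [h3] at h4
  have hI : (-4 * Complex.I : ℂ) ≠ 0 := by simp
  have h5 : (-4 * Complex.I) * ((v:ℂ) * ∑' j, fp ρ v j * fm ρ v j) =
      (-4 * Complex.I) * ((Real.pi / 2 * (1 + 2 * qq ε v 0) : ℝ) : ℂ) := by
    rw [← mul_assoc, h4]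
    push_cast
    ring
  exact mul_left_cancel₀ hI h5

/-! ### Coefficients -/

theorem coeff_gser (a α : ℂ) (p : ℕ) : PowerSeries.coeff p (gser a α) = α ^ p * a ^ (p + 1) := by
  unfold gser
  rw [PowerSeries.coeff_mk]

theorem hh0 (w : ℂ) (v : SV) :
    PowerSeries.coeff 0 (hh w v) = w * ((KA w v.1)⁻¹ * (KB w v.1)⁻¹) := by
  unfold hh As Bs
  rw [PowerSeries.coeff_smul, PowerSeries.coeff_mul, smul_eq_mul]
  congr 1
  simp [coeff_gser]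

theorem hh2 (w : ℂ) (v : SV) :
    PowerSeries.coeff 2 (hh w v) = w * ((v.2:ℂ) ^ 2 * ((KA w v.1)⁻¹ * (KB w v.1)⁻¹ ^ 3 +
      (KA w v.1)⁻¹ ^ 2 * (KB w v.1)⁻¹ ^ 2 + (KA w v.1)⁻¹ ^ 3 * (KB w v.1)⁻¹)) := by
  unfold hh As Bs
  rw [PowerSeries.coeff_smul, PowerSeries.coeff_mul, smul_eq_mul]
  congr 1
  simp only [Finset.Nat.antidiagonal_succ, Finset.Nat.antidiagonal_zero, coeff_gser]
  simp
  ring

theorem dd0 (w : ℂ) (v : SV) :
    PowerSeries.coeff 0 (dd w v) = w / 2 * ((KA w v.1)⁻¹ ^ 2 + (KB w v.1)⁻¹ ^ 2) := by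
  unfold dd As Bs
  rw [PowerSeries.coeff_smul, map_add, sq, sq, PowerSeries.coeff_mul, PowerSeries.coeff_mul,
    smul_eq_mul]
  congr 1
  simp [coeff_gser]
  ring

theorem dd2 (w : ℂ) (v : SV) :
    PowerSeries.coeff 2 (dd w v) = w / 2 * (3 * (v.2:ℂ) ^ 2 *
      ((KA w v.1)⁻¹ ^ 4 + (KB w v.1)⁻¹ ^ 4)) := by
  unfold dd As Bs
  rw [PowerSeries.coeff_smul, map_add, sq, sq, PowerSeries.coeff_mul, PowerSeries.coeff_mul,
    smul_eq_mul]
  congr 1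
  simp only [Finset.Nat.antidiagonal_succ, Finset.Nat.antidiagonal_zero, coeff_gser]
  simp
  ring

theorem xx1 (w : ℂ) (v : SV) :
    PowerSeries.coeff 1 (xx w v) = w / (2 * Complex.I) * (2 * (v.2:ℂ) *
      ((KA w v.1)⁻¹ ^ 3 - (KB w v.1)⁻¹ ^ 3)) := by
  unfold xx As Bs
  rw [PowerSeries.coeff_smul, map_sub, sq, sq, PowerSeries.coeff_mul, PowerSeries.coeff_mul,
    smul_eq_mul]
  congr 1
  simp only [Finset.Nat.antidiagonal_succ, Finset.Nat.antidiagonal_zero, coeff_gser]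
  simp
  ring

/-! ### The case `m ≠ 0` -/

theorem rho_mem (r m : ℤ) : rho r m = 0 ∨ rho r m = 1 := by
  unfold rho
  omega

theorem eps_eq (r m : ℤ) : epz r m = if rho r m = 0 then 1 else -1 := rfl

/-- The values of `a` and `b`, `m > 0`. -/
theorem KA_pos {y : ℝ} {m : ℤ} (hm : 0 < m) (ρ j : ℤ) :
    (KA (y:ℂ) (2 * j + ρ, m))⁻¹ = fp ρ (|(m:ℝ)| * y) j ∧
    (KB (y:ℂ) (2 * j + ρ, m))⁻¹ = fm ρ (|(m:ℝ)| * y) j := by
  have h : |(m:ℝ)| = m := abs_of_pos (by exact_mod_cast hm)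
  unfold KA KB fp fm
  rw [h]
  constructor <;> · congr 1; push_cast; ring

theorem KA_neg {y : ℝ} {m : ℤ} (hm : m < 0) (ρ j : ℤ) :
    (KA (y:ℂ) (2 * j + ρ, m))⁻¹ = fm ρ (|(m:ℝ)| * y) j ∧
    (KB (y:ℂ) (2 * j + ρ, m))⁻¹ = fp ρ (|(m:ℝ)| * y) j := by
  have h : |(m:ℝ)| = -m := abs_of_neg (by exact_mod_cast hm)
  unfold KA KB fp fm
  rw [h]
  constructor <;> · congr 1; push_cast; ring

/-- sum of `fp^3 fm..`: the geometric identity -/
theorem geo {v : ℝ} (hv : 0 < v) (ρ j : ℤ) :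
    fp ρ v j * fm ρ v j ^ 3 + fp ρ v j ^ 2 * fm ρ v j ^ 2 + fp ρ v j ^ 3 * fm ρ v j =
      (2 * Complex.I * (v:ℂ))⁻¹ * (fm ρ v j ^ 3 - fp ρ v j ^ 3) := by
  have h1 := ne_p hv.ne' (2 * j + ρ)
  have h2 := ne_m hv.ne' (2 * j + ρ)
  have hv' : (v:ℂ) ≠ 0 := by exact_mod_cast hv.ne'
  have hI : (2 * Complex.I * (v:ℂ)) ≠ 0 := by simp [hv.ne']
  have h3 : fm ρ v j - fp ρ v j = 2 * Complex.I * (v:ℂ) * (fp ρ v j * fm ρ v j) := by
    unfold fp fm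
    field_simp
    ring
  rw [eq_inv_mul_iff_mul_eq₀ hI]
  have e : fm ρ v j ^ 3 - fp ρ v j ^ 3 =
      (fm ρ v j - fp ρ v j) * (fm ρ v j ^ 2 + fm ρ v j * fp ρ v j + fp ρ v j ^ 2) := by ring
  rw [e, h3]
  ring

theorem sums {y : ℝ} (hy : 0 < y) {r m : ℤ} (al : ℤ) (h : (m - r) % 3 = 0) (hm : m ≠ 0) :
    hS y r m al 0 = ((|(m:ℝ)| : ℝ) : ℂ)⁻¹ * (((|(m:ℝ)| * y : ℝ) : ℂ) *
      ∑' j, fp (rho r m) (|(m:ℝ)| * y) j * fm (rho r m) (|(m:ℝ)| * y) j) ∧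
    hS y r m al 2 = -((al:ℂ) ^ 2 * (Complex.I * ((|(m:ℝ)| : ℝ) : ℂ))⁻¹ *
      ∑' j, fp (rho r m) (|(m:ℝ)| * y) j ^ 3) ∧
    dS y r m al 0 = (y:ℂ) * ∑' j, fp (rho r m) (|(m:ℝ)| * y) j ^ 2 ∧
    dS y r m al 2 = 3 * (y:ℂ) * (al:ℂ) ^ 2 * ∑' j, fp (rho r m) (|(m:ℝ)| * y) j ^ 4 ∧
    xS y r m al 1 = 2 * (y:ℂ) * (al:ℂ) * (m.sign:ℂ) * Complex.I⁻¹ *
      ∑' j, fp (rho r m) (|(m:ℝ)| * y) j ^ 3 := by
  have hm0 : 0 < |(m:ℝ)| := abs_pos.2 (by exact_mod_cast hm)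
  have hv : 0 < |(m:ℝ)| * y := mul_pos hm0 hy
  set v : ℝ := |(m:ℝ)| * y with hvdef
  set ρ : ℤ := rho r m with hρ
  have p2 := fp_summable ρ v (k := 2) (by norm_num)
  have p3 := fp_summable ρ v (k := 3) (by norm_num)
  have p4 := fp_summable ρ v (k := 4) (by norm_num)
  have m2 := fm_summable ρ v (k := 2) (by norm_num)
  have m3 := fm_summable ρ v (k := 3) (by norm_num)
  have m4 := fm_summable ρ v (k := 4) (by norm_num)
  have t2 := fm_tsum ρ v 2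
  have t3 := fm_tsum ρ v 3
  have t4 := fm_tsum ρ v 4
  have hmc : ((|(m:ℝ)| : ℝ) : ℂ) ≠ 0 := by exact_mod_cast hm0.ne'
  have hyc : (y:ℂ) ≠ 0 := by exact_mod_cast hy.ne'
  have hvc : (v:ℂ) = ((|(m:ℝ)| : ℝ) : ℂ) * (y:ℂ) := by rw [hvdef]; push_cast; ring
  have hv0 : (v:ℂ) ≠ 0 := by exact_mod_cast hv.ne'
  -- symmetric expressions
  have ha0 : ∀ j, PowerSeries.coeff 0 (hh (y:ℂ) ((2 * j + ρ, m), al)) =
      (y:ℂ) * (fp ρ v j * fm ρ v j) := by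
    intro j
    rw [hh0]
    rcases lt_or_gt_of_ne hm with h1 | h1
    · rw [(KA_neg h1 ρ j).1, (KA_neg h1 ρ j).2]; ring
    · rw [(KA_pos h1 ρ j).1, (KA_pos h1 ρ j).2]
  have ha2 : ∀ j, PowerSeries.coeff 2 (hh (y:ℂ) ((2 * j + ρ, m), al)) =
      (y:ℂ) * (al:ℂ) ^ 2 * ((2 * Complex.I * (v:ℂ))⁻¹ * (fm ρ v j ^ 3 - fp ρ v j ^ 3)) := by
    intro j
    rw [hh2, ← geo hv]
    rcases lt_or_gt_of_ne hm with h1 | h1
    · rw [(KA_neg h1 ρ j).1, (KA_neg h1 ρ j).2]; ring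
    · rw [(KA_pos h1 ρ j).1, (KA_pos h1 ρ j).2]; ring
  have hb0 : ∀ j, PowerSeries.coeff 0 (dd (y:ℂ) ((2 * j + ρ, m), al)) =
      (y:ℂ) / 2 * (fp ρ v j ^ 2 + fm ρ v j ^ 2) := by
    intro j
    rw [dd0]
    rcases lt_or_gt_of_ne hm with h1 | h1
    · rw [(KA_neg h1 ρ j).1, (KA_neg h1 ρ j).2]; ring
    · rw [(KA_pos h1 ρ j).1, (KA_pos h1 ρ j).2]
  have hb2 : ∀ j, PowerSeries.coeff 2 (dd (y:ℂ) ((2 * j + ρ, m), al)) =
      (y:ℂ) / 2 * (3 * (al:ℂ) ^ 2) * (fp ρ v j ^ 4 + fm ρ v j ^ 4) := by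
    intro j
    rw [dd2]
    rcases lt_or_gt_of_ne hm with h1 | h1
    · rw [(KA_neg h1 ρ j).1, (KA_neg h1 ρ j).2]; ring
    · rw [(KA_pos h1 ρ j).1, (KA_pos h1 ρ j).2]; ring
  have hc1 : ∀ j, PowerSeries.coeff 1 (xx (y:ℂ) ((2 * j + ρ, m), al)) =
      (y:ℂ) / (2 * Complex.I) * (2 * (al:ℂ)) * (m.sign:ℂ) * (fp ρ v j ^ 3 - fm ρ v j ^ 3) := by
    intro j
    rw [xx1]
    rcases lt_or_gt_of_ne hm with h1 | h1
    · rw [(KA_neg h1 ρ j).1, (KA_neg h1 ρ j).2, Int.sign_eq_neg_one_of_neg h1]; push_cast; ring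
    · rw [(KA_pos h1 ρ j).1, (KA_pos h1 ρ j).2, Int.sign_eq_one_of_pos h1]; push_cast; ring
  refine ⟨?_, ?_, ?_, ?_, ?_⟩
  · unfold hS
    rw [tsum_class h]
    rw [tsum_congr ha0, tsum_mul_left, hvc]
    field_simp
  · unfold hS
    rw [tsum_class h]
    rw [tsum_congr ha2, tsum_mul_left, tsum_mul_left, m3.tsum_sub p3, t3, hvc]
    field_simp
    ring
  · unfold dS
    rw [tsum_class h]
    rw [tsum_congr hb0, tsum_mul_left, p2.tsum_add m2, t2]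
    ring
  · unfold dS
    rw [tsum_class h]
    rw [tsum_congr hb2, tsum_mul_left, p4.tsum_add m4, t4]
    ring
  · unfold xS
    rw [tsum_class h]
    rw [tsum_congr hc1, tsum_mul_left, p3.tsum_sub m3, t3]
    field_simp
    ring

theorem case_ne {y : ℝ} (hy : 0 < y) {r m : ℤ} (al : ℤ) (h : (m - r) % 3 = 0) (hm : m ≠ 0) :
    hS y r m al 0 = ((Real.pi / (2 * |(m:ℝ)|) * (1 + 2 * qz y r m 0) : ℝ) : ℂ) ∧
    hS y r m al 2 = ((-((al:ℝ) ^ 2 * (Real.pi ^ 3 / (2 * |(m:ℝ)|)) * qz y r m 2) : ℝ) : ℂ) ∧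
    dS y r m al 0 = ((-(Real.pi ^ 2 * y * qz y r m 1) : ℝ) : ℂ) ∧
    dS y r m al 2 = (((al:ℝ) ^ 2 * (Real.pi ^ 4 * y / 2) * qz y r m 3 : ℝ) : ℂ) ∧
    xS y r m al 1 = (((al:ℝ) * (m.sign : ℝ) * y * Real.pi ^ 3 * qz y r m 2 : ℝ) : ℂ) := by
  obtain ⟨s1, s2, s3, s4, s5⟩ := sums hy al h hm
  have hm0 : 0 < |(m:ℝ)| := abs_pos.2 (by exact_mod_cast hm)
  have hv : 0 < |(m:ℝ)| * y := mul_pos hm0 hy
  have hρ := rho_mem r m
  have hmc : ((|(m:ℝ)| : ℝ) : ℂ) ≠ 0 := by exact_mod_cast hm0.ne'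
  have k1 := Sk_eq (rho r m) hρ hv (k := 1) (by norm_num)
  have k2 := Sk_eq (rho r m) hρ hv (k := 2) (by norm_num)
  have k3 := Sk_eq (rho r m) hρ hv (k := 3) (by norm_num)
  have k0 := cot_sum (rho r m) hρ hv
  rw [← eps_eq] at k0 k1 k2 k3
  rw [← qz_eq] at k0 k1 k2 k3
  norm_num [Nat.factorial] at k1 k2 k3
  have I2 : Complex.I ^ 2 = -1 := Complex.I_sq
  have I3 : Complex.I ^ 3 = -Complex.I := by rw [pow_succ, I2]; ring
  have I4 : Complex.I ^ 4 = 1 := by rw [show (4:ℕ) = 2 * 2 by norm_num, pow_mul, I2]; norm_num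
  have j1 : ∑' j, fp (rho r m) (|(m:ℝ)| * y) j ^ 2 =
      -((Real.pi:ℂ) ^ 2 * ((qz y r m 1 : ℝ) : ℂ)) := by
    rw [k1, mul_pow, mul_pow, I2]; ring
  have j2 : ∑' j, fp (rho r m) (|(m:ℝ)| * y) j ^ 3 =
      Complex.I * ((Real.pi:ℂ) ^ 3 / 2 * ((qz y r m 2 : ℝ) : ℂ)) := by
    rw [k2, neg_pow, mul_pow, mul_pow, I3]; ring
  have j3 : ∑' j, fp (rho r m) (|(m:ℝ)| * y) j ^ 4 =
      (Real.pi:ℂ) ^ 4 / 6 * ((qz y r m 3 : ℝ) : ℂ) := by
    rw [k3, mul_pow, mul_pow, I4]; ring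
  have hI : Complex.I ≠ 0 := Complex.I_ne_zero
  refine ⟨?_, ?_, ?_, ?_, ?_⟩
  · rw [s1, k0]
    push_cast
    field_simp
  · rw [s2, j2]
    push_cast
    field_simp
  · rw [s3, j1]
    push_cast
    ring
  · rw [s4, j3]
    push_cast
    ring
  · rw [s5, j2]
    push_cast
    field_simp

/-! ### The case `m = 0` -/

theorem hasSum_int_sq : HasSum (fun n : ℤ => 1 / (n:ℝ) ^ 2) (Real.pi ^ 2 / 3) := by
  have h := hasSum_zeta_two
  have h2 := HasSum.of_nat_of_neg (f := fun n : ℤ => 1 / (n:ℝ) ^ 2)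
    (by simpa using h) (by simpa using h)
  have e : Real.pi ^ 2 / 6 + Real.pi ^ 2 / 6 - 1 / ((0:ℤ):ℝ) ^ 2 = Real.pi ^ 2 / 3 := by
    norm_num
    ring
  rwa [e] at h2

theorem even_sum : HasSum (fun j : ℤ => 1 / (((2 * j : ℤ) : ℝ)) ^ 2) (Real.pi ^ 2 / 12) := by
  have h := hasSum_int_sq.mul_left (1 / 4)
  have e : 1 / 4 * (Real.pi ^ 2 / 3) = Real.pi ^ 2 / 12 := by ring
  rw [e] at h
  have e2 : (fun j : ℤ => 1 / (((2 * j : ℤ) : ℝ)) ^ 2) =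
      fun j : ℤ => 1 / 4 * (1 / (j:ℝ) ^ 2) := by
    funext j
    push_cast
    rcases eq_or_ne (j:ℝ) 0 with h0 | h0
    · rw [h0]; simp
    · field_simp
      norm_num
  rw [e2]
  exact h

theorem odd_sum : HasSum (fun j : ℤ => 1 / (((2 * j + 1 : ℤ) : ℝ)) ^ 2) (Real.pi ^ 2 / 4) := by
  have hs : Summable (fun j : ℤ => 1 / (((2 * j + 1 : ℤ) : ℝ)) ^ 2) :=
    hasSum_int_sq.summable.comp_injective (inj 1)
  have g0 : HasSum (fun n : ℤ => if n % 2 = 0 then 1 / (n:ℝ) ^ 2 else 0) (Real.pi ^ 2 / 12) := by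
    rw [← (inj 0).hasSum_iff]
    · have e : ((fun n : ℤ => if n % 2 = 0 then 1 / (n:ℝ) ^ 2 else 0) ∘ fun j : ℤ => 2 * j + 0) =
          (fun j : ℤ => 1 / (((2 * j : ℤ) : ℝ)) ^ 2) := by
        funext j
        have h0 : 2 * j % 2 = 0 := by omega
        simp only [Function.comp, add_zero, h0, if_true]
      rw [e]
      exact even_sum
    · intro n hn
      refine if_neg fun h => hn ⟨n / 2, ?_⟩
      show 2 * (n / 2) + 0 = n
      omega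
  have g1 : HasSum (fun n : ℤ => if n % 2 = 0 then 0 else 1 / (n:ℝ) ^ 2)
      (∑' j : ℤ, 1 / (((2 * j + 1 : ℤ) : ℝ)) ^ 2) := by
    rw [← (inj 1).hasSum_iff]
    · have e : ((fun n : ℤ => if n % 2 = 0 then 0 else 1 / (n:ℝ) ^ 2) ∘ fun j : ℤ => 2 * j + 1) =
          (fun j : ℤ => 1 / (((2 * j + 1 : ℤ) : ℝ)) ^ 2) := by
        funext j
        have h0 : ¬ (2 * j + 1) % 2 = 0 := by omega
        simp only [Function.comp, h0, if_false]
      rw [e]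
      exact hs.hasSum
    · intro n hn
      refine if_pos ?_
      by_contra h
      refine hn ⟨n / 2, ?_⟩
      show 2 * (n / 2) + 1 = n
      omega
  have h1 := g0.add g1
  have e : (fun n : ℤ => (if n % 2 = 0 then 1 / (n:ℝ) ^ 2 else 0) +
      (if n % 2 = 0 then 0 else 1 / (n:ℝ) ^ 2)) = fun n : ℤ => 1 / (n:ℝ) ^ 2 := by
    funext n
    split_ifs <;> simp
  rw [e] at h1
  have h2 := h1.unique hasSum_int_sq
  have h3 : ∑' j : ℤ, 1 / (((2 * j + 1 : ℤ) : ℝ)) ^ 2 = Real.pi ^ 2 / 4 := by linarith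
  rw [← h3]
  exact hs.hasSum

theorem class_sum (r : ℤ) : ∑' j : ℤ, (1 / (((2 * j + rho r 0 : ℤ) : ℂ)) ^ 2) =
    ((if r % 2 = 0 then Real.pi ^ 2 / 12 else Real.pi ^ 2 / 4 : ℝ) : ℂ) := by
  have h1 : ∑' j : ℤ, (1 / (((2 * j + rho r 0 : ℤ) : ℝ)) ^ 2) =
      (if r % 2 = 0 then Real.pi ^ 2 / 12 else Real.pi ^ 2 / 4 : ℝ) := by
    rcases Int.emod_two_eq_zero_or_one r with h | h
    · have e : rho r 0 = 0 := by unfold rho; omega
      rw [e, if_pos h]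
      simp only [add_zero]
      exact even_sum.tsum_eq
    · have e : rho r 0 = 1 := by unfold rho; omega
      rw [e, if_neg (by omega)]
      exact odd_sum.tsum_eq
  rw [← h1, Complex.ofReal_tsum]
  refine tsum_congr fun j => ?_
  push_cast
  rfl

theorem KA_zero (y : ℝ) (n : ℤ) : KA (y:ℂ) (n, 0) = n ∧ KB (y:ℂ) (n, 0) = n := by
  unfold KA KB
  simp

theorem case_zero (y : ℝ) {r : ℤ} (al : ℤ) (h : (0 - r) % 3 = 0) :
    hS y r 0 al 0 = (((if r % 2 = 0 then Real.pi ^ 2 * y / 12 else Real.pi ^ 2 * y / 4) : ℝ) : ℂ) ∧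
    dS y r 0 al 0 = (((if r % 2 = 0 then Real.pi ^ 2 * y / 12 else Real.pi ^ 2 * y / 4) : ℝ) : ℂ) ∧
    xS y r 0 al 1 = 0 := by
  have hval : (((if r % 2 = 0 then Real.pi ^ 2 * y / 12 else Real.pi ^ 2 * y / 4) : ℝ) : ℂ) =
      (y:ℂ) * ∑' j : ℤ, (1 / (((2 * j + rho r 0 : ℤ) : ℂ)) ^ 2) := by
    rw [class_sum]
    split_ifs <;> · push_cast; ring
  refine ⟨?_, ?_, ?_⟩
  · unfold hS
    rw [tsum_class h, hval, ← tsum_mul_left]
    refine tsum_congr fun j => ?_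
    rw [hh0]
    simp only [(KA_zero y _).1, (KA_zero y _).2]
    rw [one_div, sq, mul_inv]
  · unfold dS
    rw [tsum_class h, hval, ← tsum_mul_left]
    refine tsum_congr fun j => ?_
    rw [dd0]
    simp only [(KA_zero y _).1, (KA_zero y _).2]
    rw [one_div, inv_pow]
    ring
  · unfold xS
    rw [tsum_class h]
    have : ∀ j : ℤ, PowerSeries.coeff 1 (xx (y:ℂ) ((2 * j + rho r 0, 0), al)) = 0 := by
      intro j
      rw [xx1]
      simp only [(KA_zero y _).1, (KA_zero y _).2]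
      ring
    rw [tsum_congr this, tsum_zero]

theorem thm (_hN1 : EC237.N1) (_hN4 : EC237.N4) : EC237.N6 := by
  intro y hy r m al h
  refine ⟨fun hm => case_ne hy al h hm, ?_⟩
  rintro rfl
  exact case_zero y al h

end Pool.Agent.Helper40.EC.D_N6
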